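import Pool.Agent.U834.GSP.Gen

/-!
# Matrix Spencer for matrices in a transpose-closed algebra, and the Group Spencer theorem

There is an absolute constant `C` such that, for every unital algebra `𝓑` of real square matrices which
is closed under the transposition (`N` its dimension), for all contractions `A_1, …, A_n` in `𝓑` and all
`x ∈ [-1, 1]^n`, some signs satisfy `‖∑ (ε_i - x_i) A_i‖ ≤ C √m max(1, √log(N / m))`, `m = min(n, N)`.
In particular, for every finite group `G` and all weights `|c_g| ≤ 1` there are signs with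
`‖∑ ε_g c_g ρ(g)‖ ≤ C √|G|`, `ρ` the left regular representation.

The proof follows the plan `Pool.Agent.Q98.SPN.Stm` of the starting library (partial colouring, entropy
of noncommutative polynomials, decomposition into levels); the packages of that plan were proved by the
seats named in `Pool.Agent.U834.GSP.All`.
-/

set_option autoImplicit false

open Finset

namespace Pool.Agent.Results.MP_1157dd_an.StarAlgebras

open Pool.Agent.U834.GSP Pool.Agent.Q98.SPN

/-- the operator norm of `A` on the Euclidean space is at most `b`: `‖A v‖₂ ≤ b ‖v‖₂` for all `v` -/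
def NormLe {ι : Type} [Fintype ι] (A : Matrix ι ι ℝ) (b : ℝ) : Prop :=
  ∀ v : ι → ℝ, Real.sqrt (∑ i, (∑ j, A i j * v j) ^ 2) ≤ b * Real.sqrt (∑ j, v j ^ 2)

/-- the factor `Λ(d, n) = max(1, √log(d / n))` of the conjecture -/
noncomputable def Lam (d n : ℕ) : ℝ := max 1 (Real.sqrt (Real.log ((d : ℝ) / n)))

/-- a linear space of real square matrices which is closed under multiplication and transposition -/
def IsAlg {ι : Type} [Fintype ι] (V : Submodule ℝ (Matrix ι ι ℝ)) : Prop :=
  (∀ A ∈ V, ∀ B ∈ V, A * B ∈ V) ∧ ∀ A ∈ V, A.transpose ∈ V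

/-- some signs `ε` satisfy `‖∑ (ε_j - x_j) A_j‖ ≤ b` -/
def HasSigns {J ι : Type} [Fintype J] [Fintype ι] (A : J → Matrix ι ι ℝ) (x : J → ℝ)
    (b : ℝ) : Prop :=
  ∃ ε : J → ℝ, (∀ j, ε j = 1 ∨ ε j = -1) ∧ NormLe (∑ j, (ε j - x j) • A j) b

/-- the left regular representation: `ρ(g)_{h,k} = 1` if `h = g k`, and `0` otherwise -/
def rho {G : Type} [Group G] [DecidableEq G] (g : G) : Matrix G G ℝ :=
  Matrix.of fun h k : G => if h = g * k then (1 : ℝ) else 0

section Aux

open scoped Matrix.Norms.L2Operator Matrix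

/-- the matrices which are invariant under the right translations of `G` -/
def inv (G : Type) [Group G] [Fintype G] [DecidableEq G] : StarSubalgebra ℝ (Matrix G G ℝ) where
  carrier := {M | ∀ a h k : G, M (h * a) (k * a) = M h k}
  mul_mem' := by
    intro M M' hM hM' a h k
    simp only [Matrix.mul_apply]
    rw [← Equiv.sum_comp (Equiv.mulRight a)]
    refine Finset.sum_congr rfl fun b _ => ?_
    simp only [Equiv.coe_mulRight]
    rw [hM, hM']
  add_mem' := by
    intro M M' hM hM' a h k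
    simp only [Matrix.add_apply]
    rw [hM, hM']
  algebraMap_mem' := by
    intro r a h k
    simp [Matrix.algebraMap_matrix_apply]
  star_mem' := by
    intro M hM a h k
    show star (M (k * a) (h * a)) = star (M k h)
    rw [hM]

lemma mem_inv {G : Type} [Group G] [Fintype G] [DecidableEq G] {M : Matrix G G ℝ} :
    M ∈ inv G ↔ ∀ a h k : G, M (h * a) (k * a) = M h k := Iff.rfl

lemma finrank_inv (G : Type) [Group G] [Fintype G] [DecidableEq G] :
    Module.finrank ℝ (inv G) ≤ Fintype.card G := by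
  let f : inv G →ₗ[ℝ] (G → ℝ) :=
    { toFun := fun M g => M.1 g 1
      map_add' := fun _ _ => rfl
      map_smul' := fun _ _ => rfl }
  have hf : Function.Injective f := by
    intro M M' h
    ext a b
    have h1 := congrFun h (a * b⁻¹)
    have h2 : M.1 (a * b⁻¹) 1 = M'.1 (a * b⁻¹) 1 := h1
    have h3 := (mem_inv.1 M.2) b (a * b⁻¹) 1
    have h4 := (mem_inv.1 M'.2) b (a * b⁻¹) 1
    simp only [inv_mul_cancel_right, one_mul] at h3 h4
    rw [h3, h4, h2]
  have h := LinearMap.finrank_le_finrank_of_injective hf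
  simpa using h

lemma rho_mem {G : Type} [Group G] [Fintype G] [DecidableEq G] (g : G) : rho g ∈ inv G := by
  intro a h k
  simp only [rho, Matrix.of_apply, ← mul_assoc, mul_left_inj]

lemma norm_rho {G : Type} [Group G] [Fintype G] [DecidableEq G] (g : G) : ‖rho g‖ ≤ 1 := by
  refine U437.SPN.norm_le_of_sum_sq _ _ zero_le_one fun v => ?_
  have h : ∀ i, (rho g *ᵥ v) i = v (g⁻¹ * i) := by
    intro i
    simp only [Matrix.mulVec, dotProduct, rho, Matrix.of_apply, ite_mul, one_mul, zero_mul]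
    rw [Finset.sum_eq_single (g⁻¹ * i)]
    · simp
    · intro b _ hb
      rw [if_neg]
      rintro rfl
      exact hb (by simp)
    · simp
  rw [one_pow, one_mul]
  refine le_of_eq ?_
  rw [← Equiv.sum_comp (Equiv.mulLeft g⁻¹) (fun j => ‖v j‖ ^ 2)]
  exact Finset.sum_congr rfl fun i _ => by rw [h]; rfl

lemma normLe_iff {ι : Type} [Fintype ι] [DecidableEq ι] (A : Matrix ι ι ℝ) (b : ℝ) (hb : 0 ≤ b) :
    NormLe A b ↔ ‖A‖ ≤ b := by
  have e : ∀ (v : ι → ℝ) (i : ι), (A *ᵥ v) i = ∑ j, A i j * v j := fun v i => rfl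
  constructor
  · intro h
    refine U437.SPN.norm_le_of_sum_sq A b hb fun v => ?_
    have h1 := h v
    have h2 := pow_le_pow_left₀ (Real.sqrt_nonneg _) h1 2
    rw [mul_pow, Real.sq_sqrt (by positivity), Real.sq_sqrt (by positivity)] at h2
    simpa only [Real.norm_eq_abs, sq_abs, e] using h2
  · intro h v
    have h1 := U437.SPN.sum_sq_mulVec_le A v
    simp only [Real.norm_eq_abs, sq_abs, e] at h1
    refine Real.sqrt_le_iff.2 ⟨by positivity, h1.trans ?_⟩
    rw [mul_pow, Real.sq_sqrt (by positivity)]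
    gcongr

/-- adjoining the unit matrix -/
def adj {ι : Type} [Fintype ι] [DecidableEq ι] (V : Submodule ℝ (Matrix ι ι ℝ)) (hV : IsAlg V) :
    StarSubalgebra ℝ (Matrix ι ι ℝ) where
  carrier := {M | ∃ r : ℝ, M - r • (1 : Matrix ι ι ℝ) ∈ V}
  mul_mem' := by
    rintro a b ⟨r, hr⟩ ⟨s, hs⟩
    refine ⟨r * s, ?_⟩
    have e : a * b - (r * s) • (1 : Matrix ι ι ℝ) =
        (a - r • 1) * (b - s • 1) + s • (a - r • 1) + r • (b - s • 1) := by
      simp only [sub_mul, mul_sub, smul_sub, smul_mul_assoc, mul_smul_comm, one_mul, mul_one, smul_smul]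
      rw [mul_comm s r]
      abel
    rw [e]
    exact V.add_mem (V.add_mem (hV.1 _ hr _ hs) (V.smul_mem _ hr)) (V.smul_mem _ hs)
  add_mem' := by
    rintro a b ⟨r, hr⟩ ⟨s, hs⟩
    refine ⟨r + s, ?_⟩
    have e : a + b - (r + s) • (1 : Matrix ι ι ℝ) = (a - r • 1) + (b - s • 1) := by
      rw [add_smul]; abel
    rw [e]
    exact V.add_mem hr hs
  algebraMap_mem' := by
    intro r
    exact ⟨r, by simp [Algebra.algebraMap_eq_smul_one]⟩
  star_mem' := by
    rintro a ⟨r, hr⟩
    refine ⟨r, ?_⟩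
    have h := hV.2 _ hr
    have e : (a - r • (1 : Matrix ι ι ℝ)).transpose = star a - r • 1 := by
      rw [Matrix.transpose_sub, Matrix.transpose_smul, Matrix.transpose_one,
        Matrix.star_eq_conjTranspose, Matrix.conjTranspose_eq_transpose_of_trivial]
    rw [← e]
    exact h

lemma finrank_adj {ι : Type} [Fintype ι] [DecidableEq ι] (V : Submodule ℝ (Matrix ι ι ℝ))
    (hV : IsAlg V) : Module.finrank ℝ (adj V hV) ≤ Module.finrank ℝ V + 1 := by
  have h1 : Subalgebra.toSubmodule (adj V hV).toSubalgebra ≤ V ⊔ Submodule.span ℝ {1} := by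
    rintro a ⟨r, hr⟩
    have e : a = (a - r • (1 : Matrix ι ι ℝ)) + r • 1 := by abel
    rw [e]
    exact Submodule.add_mem_sup hr (Submodule.smul_mem _ _ (Submodule.mem_span_singleton_self _))
  have h2 : Module.finrank ℝ (adj V hV) =
      Module.finrank ℝ (Subalgebra.toSubmodule (adj V hV).toSubalgebra) := rfl
  rw [h2]
  refine (Submodule.finrank_mono h1).trans ?_
  have h3 := Submodule.finrank_add_le_finrank_add_finrank V
    (Submodule.span ℝ {(1 : Matrix ι ι ℝ)})
  have h4 : Module.finrank ℝ (Submodule.span ℝ {(1 : Matrix ι ι ℝ)}) ≤ 1 := by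
    have := finrank_span_le_card (R := ℝ) ({(1 : Matrix ι ι ℝ)} : Set (Matrix ι ι ℝ))
    simpa using this
  have h5 : Module.finrank ℝ ↥(V ⊔ Submodule.span ℝ {(1 : Matrix ι ι ℝ)}) ≤
      Module.finrank ℝ V + Module.finrank ℝ (Submodule.span ℝ {(1 : Matrix ι ι ℝ)}) := h3
  omega

lemma gf_two (N n : ℕ) (hN : 1 ≤ N) :
    gf ((2 * N : ℕ) : ℝ) ((min n (2 * N) : ℕ) : ℝ) ≤ 2 * gf N ((min n N : ℕ) : ℝ) := by
  have hNr : (0 : ℝ) < N := by exact_mod_cast hN
  have hN2 : (0 : ℝ) < ((2 * N : ℕ) : ℝ) := by push_cast; linarith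
  rcases le_total n N with h | h
  · rw [min_eq_left h, min_eq_left (by omega)]
    rcases Nat.eq_zero_or_pos n with h0 | h0
    · subst h0; simp [gf]
    · have hn : (0 : ℝ) < n := by exact_mod_cast h0
      have hl : Real.log (((2 * N : ℕ) : ℝ) / n) = Real.log 2 + Real.log ((N : ℝ) / n) := by
        rw [← Real.log_mul (by norm_num) (by positivity)]
        congr 1
        push_cast
        ring
      have h2 : Real.log 2 ≤ 1 := by
        have := Real.log_two_lt_d9
        linarith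
      unfold gf
      rw [hl]
      have h3 : max 1 (Real.log 2 + Real.log ((N : ℝ) / n)) ≤ 2 * max 1 (Real.log ((N : ℝ) / n)) := by
        refine max_le ?_ ?_
        · have := le_max_left (1 : ℝ) (Real.log ((N : ℝ) / n)); linarith
        · have h4 := le_max_left (1 : ℝ) (Real.log ((N : ℝ) / n))
          have h5 := le_max_right (1 : ℝ) (Real.log ((N : ℝ) / n))
          linarith
      nlinarith
  · rw [min_eq_right h]
    rcases Nat.eq_zero_or_pos n with h0 | h0
    · omega
    · have h2 : gf ((2 * N : ℕ) : ℝ) ((min n (2 * N) : ℕ) : ℝ) ≤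
          gf ((2 * N : ℕ) : ℝ) ((2 * N : ℕ) : ℝ) := by
        refine (U473.GSP.GF.t_GF _ hN2).1 _ _ ?_ ?_
        · have : 0 < min n (2 * N) := by
            rw [lt_min_iff]; omega
          exact_mod_cast this
        · exact_mod_cast min_le_right _ _
      refine h2.trans (le_of_eq ?_)
      unfold gf
      rw [div_self hN2.ne', div_self hNr.ne', Real.log_one, max_eq_left zero_le_one]
      push_cast
      ring

lemma part_one (ι : Type) [Fintype ι] [DecidableEq ι] (V : Submodule ℝ (Matrix ι ι ℝ))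
    (hV : IsAlg V) (n : ℕ) (A : Fin n → Matrix ι ι ℝ) (hA : ∀ i, A i ∈ V) (h1 : ∀ i, ‖A i‖ ≤ 1)
    (x : Fin n → ℝ) (hx : ∀ i, |x i| ≤ 1) :
    ∃ ε : Fin n → ℝ, (∀ i, ε i = 1 ∨ ε i = -1) ∧
      ‖∑ i, (ε i - x i) • A i‖ ≤ 3 * 10 ^ 5 * Real.sqrt (min n (Module.finrank ℝ V) : ℕ) *
        Lam (Module.finrank ℝ V) (min n (Module.finrank ℝ V)) := by
  rcases Nat.eq_zero_or_pos (Module.finrank ℝ V) with h0 | hpos
  · refine ⟨fun _ => 1, fun _ => Or.inl rfl, ?_⟩
    have hV0 : V = ⊥ := Submodule.finrank_eq_zero.1 h0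
    have hA0 : ∀ i, A i = 0 := fun i => by
      have := hA i
      rw [hV0] at this
      simpa using this
    simp only [hA0, smul_zero, Finset.sum_const_zero, norm_zero]
    unfold Lam
    positivity
  · obtain ⟨ε, hε, hb⟩ := real_lin' ι (adj V hV) (Fin n) A
      (fun i => ⟨0, by simpa using hA i⟩) h1 (2 * Module.finrank ℝ V) (by omega)
      ((finrank_adj V hV).trans (by omega)) x hx
    refine ⟨ε, hε, hb.trans ?_⟩
    rw [Fintype.card_fin]
    have h2 : Real.sqrt (gf ((2 * Module.finrank ℝ V : ℕ) : ℝ) ((min n (2 * Module.finrank ℝ V) : ℕ) : ℝ)) ≤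
        1.5 * Real.sqrt (gf (Module.finrank ℝ V) ((min n (Module.finrank ℝ V) : ℕ) : ℝ)) := by
      have h3 : 0 ≤ gf (Module.finrank ℝ V) ((min n (Module.finrank ℝ V) : ℕ) : ℝ) := by
        unfold gf; positivity
      refine Real.sqrt_le_iff.2 ⟨by positivity, ?_⟩
      rw [mul_pow, Real.sq_sqrt h3]
      have := gf_two (Module.finrank ℝ V) n hpos
      nlinarith
    rw [sqrt_gf (Module.finrank ℝ V)] at h2
    have h4 : U834.GSP.Lam (Module.finrank ℝ V) (min n (Module.finrank ℝ V)) =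
        Lam (Module.finrank ℝ V) (min n (Module.finrank ℝ V)) := rfl
    rw [h4] at h2
    nlinarith

lemma part_two (G : Type) [Group G] [Fintype G] [DecidableEq G] (c : G → ℝ) (hc : ∀ g, |c g| ≤ 1) :
    ∃ ε : G → ℝ, (∀ g, ε g = 1 ∨ ε g = -1) ∧
      ‖∑ g, (ε g * c g) • rho g‖ ≤ 2 * 10 ^ 5 * Real.sqrt (Fintype.card G) := by
  have hpos : (0 : ℝ) < Fintype.card G := by exact_mod_cast Fintype.card_pos
  obtain ⟨ε, hε, hb⟩ := real_signs' G (inv G) G (fun g => c g • rho g)
    (fun g => (inv G).smul_mem (rho_mem g) (c g))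
    (fun g => by
      rw [norm_smul, Real.norm_eq_abs]
      exact mul_le_one₀ (hc g) (norm_nonneg _) (norm_rho g))
    (Fintype.card G) hpos (by exact_mod_cast finrank_inv G)
  refine ⟨ε, hε, ?_⟩
  have e1 : ∑ g, (ε g * c g) • rho g = ∑ g, ε g • (c g • rho g) :=
    Finset.sum_congr rfl fun g _ => by rw [smul_smul]
  rw [e1]
  refine hb.trans ?_
  have e2 : gf (Fintype.card G) (Fintype.card G) = Fintype.card G := by
    unfold gf
    rw [div_self hpos.ne', Real.log_one, max_eq_left zero_le_one, mul_one]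
  rw [e2]
  have := Real.sqrt_nonneg (Fintype.card G : ℝ)
  nlinarith

lemma part_one' (ι : Type) [Fintype ι] [DecidableEq ι] (V : Submodule ℝ (Matrix ι ι ℝ))
    (hV : IsAlg V) (n : ℕ) (A : Fin n → Matrix ι ι ℝ) (x : Fin n → ℝ)
    (h : ∀ i, A i ∈ V ∧ NormLe (A i) 1 ∧ |x i| ≤ 1) :
    HasSigns A x (3 * 10 ^ 5 * Real.sqrt (min n (Module.finrank ℝ V) : ℕ) *
        Lam (Module.finrank ℝ V) (min n (Module.finrank ℝ V))) := by
  have h1 : ∀ i, ‖A i‖ ≤ 1 := fun i => (normLe_iff _ _ zero_le_one).1 (h i).2.1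
  obtain ⟨ε, hε, hb⟩ := part_one ι V hV n A (fun i => (h i).1) h1 x (fun i => (h i).2.2)
  exact ⟨ε, hε, (normLe_iff _ _ (by unfold Lam; positivity)).2 hb⟩

lemma part_two' (G : Type) [Group G] [Fintype G] [DecidableEq G] (c : G → ℝ) (hc : ∀ g, |c g| ≤ 1) :
    HasSigns (fun g => c g • rho g) (fun _ => 0) (3 * 10 ^ 5 * Real.sqrt (Fintype.card G)) := by
  obtain ⟨ε, hε, hb⟩ := part_two G c hc
  refine ⟨ε, hε, (normLe_iff _ _ (by positivity)).2 ?_⟩
  simp only [sub_zero, smul_smul]
  refine hb.trans ?_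
  have := Real.sqrt_nonneg (Fintype.card G : ℝ)
  nlinarith

end Aux

/-- Matrix Spencer in transpose-closed algebras, and the Group Spencer theorem for all finite groups. -/
theorem result :
    ∃ C : ℝ, 0 < C ∧
      (∀ (ι : Type) [Fintype ι] [DecidableEq ι] (V : Submodule ℝ (Matrix ι ι ℝ)), IsAlg V →
          ∀ (N n : ℕ) (A : Fin n → Matrix ι ι ℝ) (x : Fin n → ℝ), N = Module.finrank ℝ V →
            (∀ i, A i ∈ V ∧ NormLe (A i) 1 ∧ |x i| ≤ 1) →
            HasSigns A x (C * Real.sqrt (min n N : ℕ) * Lam N (min n N))) ∧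
      (∀ (G : Type) [Group G] [Fintype G] [DecidableEq G] (c : G → ℝ), (∀ g, |c g| ≤ 1) →
          HasSigns (fun g => c g • rho g) (fun _ => 0) (C * Real.sqrt (Fintype.card G))) := by
  refine ⟨3 * 10 ^ 5, by norm_num, ?_, ?_⟩
  · rintro ι _ _ V hV N n A x rfl h
    exact part_one' ι V hV n A x h
  · intro G _ _ _ c hc
    exact part_two' G c hc

end Pool.Agent.Results.MP_1157dd_an.StarAlgebras
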